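import Mathlib

set_option autoImplicit false

/-!
# A recursive total order whose plactic monoid has an undecidable Diophantine problem

Let `a < b` be letters of a totally ordered set `L`. The system of equations
`a b X = b a X`, `X a b = X b a`, `a X a = X a a`, `X a X = X X a`, `b X b = b b X`
with one unknown `X` is solvable in the plactic monoid `P(L)` iff there is a letter strictly between
`a` and `b`. If there is one, it is a solution. If there is none, the map `a ↦ q`, `b ↦ p`, all other
letters `↦ 1` is a homomorphism from `P(L)` to the bicyclic monoid `⟨p, q | p q = 1⟩`, in which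
the system is not solvable. So the Diophantine problem is undecidable as soon as it is undecidable
whether there is an element strictly between two given ones. There is such an order which is
isomorphic to the usual order of the natural numbers.
-/

namespace Pool.Agent.Results.MP_a663df_lc.RecursiveOrder

open Nat.Partrec (Code)

/-- The Knuth relations of the ordered alphabet `(A, lt)`, `lt` being a strict total order:
`z x y = x z y` for `x ≤ y < z` and `y x z = y z x` for `x < y ≤ z`. -/
inductive Knuth {A : Type} (lt : A → A → Prop) : FreeMonoid A → FreeMonoid A → Prop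
  | zxy {x y z : A} : (lt x y ∨ x = y) → lt y z →
      Knuth lt (.of z * .of x * .of y) (.of x * .of z * .of y)
  | yxz {x y z : A} : lt x y → (lt y z ∨ y = z) →
      Knuth lt (.of y * .of x * .of z) (.of y * .of z * .of x)

/-- The plactic monoid of the ordered alphabet `(A, lt)`. -/
abbrev Plactic {A : Type} (lt : A → A → Prop) : Type := (conGen (Knuth lt)).Quotient

/-- The generator of the plactic monoid given by a letter. -/
def gen {A : Type} (lt : A → A → Prop) (c : A) : Plactic lt := (conGen (Knuth lt)).mk' (.of c)

/-- The value in the plactic monoid of a word in the variables `x_i` (`Sum.inl i`) and the letters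
`c` (`Sum.inr c`), when the variables have the values `v i`. -/
def value {A : Type} (lt : A → A → Prop) (v : ℕ → Plactic lt) (w : List (ℕ ⊕ A)) : Plactic lt :=
  (w.map (Sum.elim v (gen lt))).prod

/-- The finite system of equations `U = V`, `(U, V) ∈ E`, with variables `x_i` and constants from
the alphabet, has a solution in the plactic monoid. -/
def Solvable {A : Type} (lt : A → A → Prop) (E : List (List (ℕ ⊕ A) × List (ℕ ⊕ A))) : Prop :=
  ∃ v : ℕ → Plactic lt, ∀ e ∈ E, value lt v e.1 = value lt v e.2

section general

variable {A : Type} {lt : A → A → Prop}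

theorem rel_zxy {x y z : A} (h1 : lt x y ∨ x = y) (h2 : lt y z) :
    gen lt z * gen lt x * gen lt y = gen lt x * gen lt z * gen lt y := by
  unfold gen
  rw [← map_mul, ← map_mul, ← map_mul, ← map_mul]
  exact (Con.eq _).2 (ConGen.Rel.of _ _ (Knuth.zxy h1 h2))

theorem rel_yxz {x y z : A} (h1 : lt x y) (h2 : lt y z ∨ y = z) :
    gen lt y * gen lt x * gen lt z = gen lt y * gen lt z * gen lt x := by
  unfold gen
  rw [← map_mul, ← map_mul, ← map_mul, ← map_mul]
  exact (Con.eq _).2 (ConGen.Rel.of _ _ (Knuth.yxz h1 h2))

/-- The system of five equations in the unknown `x_0`. -/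
def sys (a b : A) : List (List (ℕ ⊕ A) × List (ℕ ⊕ A)) :=
  [([.inr a, .inr b, .inl 0], [.inr b, .inr a, .inl 0]),
   ([.inl 0, .inr a, .inr b], [.inl 0, .inr b, .inr a]),
   ([.inr a, .inl 0, .inr a], [.inl 0, .inr a, .inr a]),
   ([.inl 0, .inr a, .inl 0], [.inl 0, .inl 0, .inr a]),
   ([.inr b, .inl 0, .inr b], [.inr b, .inr b, .inl 0])]

theorem solvable_sys_iff (a b : A) : Solvable lt (sys a b) ↔ ∃ X : Plactic lt,
    gen lt a * gen lt b * X = gen lt b * gen lt a * X ∧
    X * gen lt a * gen lt b = X * gen lt b * gen lt a ∧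
    gen lt a * X * gen lt a = X * gen lt a * gen lt a ∧
    X * gen lt a * X = X * X * gen lt a ∧
    gen lt b * X * gen lt b = gen lt b * gen lt b * X := by
  constructor
  · rintro ⟨v, hv⟩
    refine ⟨v 0, ?_⟩
    simpa [sys, value, mul_assoc] using hv
  · rintro ⟨X, hX⟩
    refine ⟨fun _ => X, ?_⟩
    simpa [sys, value, mul_assoc] using hX

theorem forward {a b x : A} (h1 : lt a x) (h2 : lt x b) : Solvable lt (sys a b) := by
  rw [solvable_sys_iff]
  refine ⟨gen lt x, ?_, ?_, ?_, ?_, ?_⟩
  · exact (rel_zxy (Or.inl h1) h2).symm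
  · exact rel_yxz h1 (Or.inl h2)
  · exact (rel_zxy (Or.inr rfl) h1).symm
  · exact rel_yxz h1 (Or.inr rfl)
  · exact rel_yxz h2 (Or.inr rfl)

/-- the successor function -/
def up : Function.End ℕ := fun n : ℕ => n + 1

/-- the predecessor function -/
def down : Function.End ℕ := fun n : ℕ => n - 1

/-- the operator of a letter: `b` acts by the predecessor function `p`, `a` by the successor
function `q`, and the other letters act trivially -/
noncomputable def act (a b : A) (c : A) : Function.End ℕ := by
  classical
  exact if c = a then up else if c = b then down else 1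

theorem act_a (a b : A) : act a b a = up := by
  unfold act
  rw [if_pos rfl]

theorem act_b {a b : A} (h : b ≠ a) : act a b b = down := by
  unfold act
  rw [if_neg h, if_pos rfl]

theorem act_other {a b c : A} (h : c ≠ a) (h' : c ≠ b) : act a b c = 1 := by
  unfold act
  rw [if_neg h, if_neg h']

theorem act_shape (a b c : A) : ∃ m n : ℕ, ∀ k : ℕ, act a b c k = (k - n) + m := by
  by_cases h1 : c = a
  · subst h1
    exact ⟨1, 0, fun k => by rw [act_a]; rfl⟩
  · by_cases h2 : c = b
    · subst h2
      exact ⟨0, 1, fun k => by rw [act_b h1]; rfl⟩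
    · exact ⟨0, 0, fun k => by rw [act_other h1 h2]; rfl⟩

/-- If no letter lies strictly between `a` and `b`, then the Knuth relations hold for the
operators. -/
theorem act_knuth [IsStrictTotalOrder A lt] {a b : A} (hab : lt a b)
    (hno : ∀ x, lt a x → ¬ lt x b) {u v : FreeMonoid A} (h : Knuth lt u v) :
    FreeMonoid.lift (act a b) u = FreeMonoid.lift (act a b) v := by
  have irr : ∀ x : A, ¬ lt x x := fun x => irrefl_of lt x
  have tr : ∀ {x y z : A}, lt x y → lt y z → lt x z := fun h1 h2 => trans_of lt h1 h2
  have hba : b ≠ a := by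
    rintro rfl
    exact irr _ hab
  -- two different letters which do not act trivially
  have key : ∀ x z : A, lt x z → act a b x = 1 ∨ act a b z = 1 ∨ (x = a ∧ z = b) := by
    intro x z hxz
    by_cases hx1 : x = a
    · by_cases hz2 : z = b
      · exact Or.inr (Or.inr ⟨hx1, hz2⟩)
      · refine Or.inr (Or.inl (act_other ?_ hz2))
        rintro rfl
        subst hx1
        exact irr _ hxz
    · by_cases hx2 : x = b
      · refine Or.inr (Or.inl (act_other ?_ ?_))
        · rintro rfl
          subst hx2
          exact irr _ (tr hab hxz)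
        · rintro rfl
          subst hx2
          exact irr _ hxz
      · exact Or.inl (act_other hx1 hx2)
  cases h with
  | @zxy x y z h1 h2 =>
    have hxz : lt x z := by
      rcases h1 with h1 | rfl
      · exact tr h1 h2
      · exact h2
    simp only [map_mul, FreeMonoid.lift_eval_of]
    rcases key x z hxz with h | h | ⟨rfl, rfl⟩
    · rw [h]; simp
    · rw [h]; simp
    · have hy : y = x := by
        rcases h1 with h1 | h1
        · exact absurd h2 (hno y h1)
        · exact h1.symm
      subst hy
      rw [act_a, act_b hba]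
      funext k
      change (k + 1) + 1 - 1 = (k + 1 - 1) + 1
      omega
  | @yxz x y z h1 h2 =>
    have hxz : lt x z := by
      rcases h2 with h2 | rfl
      · exact tr h1 h2
      · exact h1
    simp only [map_mul, FreeMonoid.lift_eval_of]
    rcases key x z hxz with h | h | ⟨rfl, rfl⟩
    · rw [h]; simp
    · rw [h]; simp
    · have hy : y = z := by
        rcases h2 with h2 | h2
        · exact absurd h2 (hno y h1)
        · exact h2
      subst hy
      rw [act_a, act_b hba]
      funext k
      change (k - 1) + 1 - 1 = ((k + 1) - 1) - 1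
      omega

theorem backward [IsStrictTotalOrder A lt] {a b : A} (hab : lt a b)
    (hno : ∀ x, lt a x → ¬ lt x b) : ¬ Solvable lt (sys a b) := by
  rw [solvable_sys_iff]
  rintro ⟨X, e1, e2, e3, e4, e5⟩
  have hle : conGen (Knuth lt) ≤ Con.ker (FreeMonoid.lift (act a b)) :=
    Con.conGen_le.2 fun u v h => act_knuth hab hno h
  let φ : Plactic lt →* Function.End ℕ := (conGen (Knuth lt)).lift (FreeMonoid.lift (act a b)) hle
  have hφ : ∀ c, φ (gen lt c) = act a b c := by
    intro c
    change (conGen (Knuth lt)).lift (FreeMonoid.lift (act a b)) hle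
      ((conGen (Knuth lt)).mk' (.of c)) = _
    rw [Con.lift_mk']
    simp
  have hba : b ≠ a := by
    rintro rfl
    exact irrefl_of lt _ hab
  -- the shape of the image of `X`
  have shape : ∀ u : FreeMonoid A, ∃ m n : ℕ, ∀ k : ℕ,
      (FreeMonoid.lift (act a b) u : Function.End ℕ) k = (k - n) + m := by
    intro u
    induction u using FreeMonoid.recOn with
    | one => exact ⟨0, 0, fun k => by rw [map_one]; rfl⟩
    | of_mul c u ih =>
      obtain ⟨m, n, h⟩ := ih
      obtain ⟨m', n', h'⟩ := act_shape a b c
      refine ⟨m' + (m - n'), n + (n' - m), fun k => ?_⟩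
      rw [map_mul, FreeMonoid.lift_eval_of]
      change act a b c ((FreeMonoid.lift (act a b) u : Function.End ℕ) k) = _
      rw [h', h]
      omega
  have shapeX : ∃ m n : ℕ, ∀ k : ℕ, φ X k = (k - n) + m := by
    obtain ⟨u, rfl⟩ := (conGen (Knuth lt)).mk'_surjective X
    obtain ⟨m, n, h⟩ := shape u
    refine ⟨m, n, fun k => ?_⟩
    rw [← h k]
    rfl
  obtain ⟨m, n, hw⟩ := shapeX
  replace e1 := congrArg φ e1
  replace e2 := congrArg φ e2
  replace e3 := congrArg φ e3
  replace e4 := congrArg φ e4
  replace e5 := congrArg φ e5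
  simp only [map_mul, hφ, act_a, act_b hba] at e1 e2 e3 e4 e5
  have f1 : ∀ k : ℕ, φ X k - 1 + 1 = φ X k + 1 - 1 := fun k => congrFun e1 k
  have f2 : ∀ k : ℕ, φ X (k - 1 + 1) = φ X (k + 1 - 1) := fun k => congrFun e2 k
  have f3 : ∀ k : ℕ, φ X (k + 1) + 1 = φ X (k + 1 + 1) := fun k => congrFun e3 k
  have f4 : ∀ k : ℕ, φ X (φ X k + 1) = φ X (φ X (k + 1)) := fun k => congrFun e4 k
  have f5 : ∀ k : ℕ, φ X (k - 1) - 1 = φ X k - 1 - 1 := fun k => congrFun e5 k
  simp only [hw] at f1 f2 f3 f4 f5
  have g1 := f1 0
  have g2 := f2 0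
  have g3 := f3 0
  have g5 := f5 0
  have hn : n = 1 := by omega
  have hm : m = 1 := by omega
  subst hn hm
  have g4 := f4 0
  omega

end general

/-! ### the order -/

/-- machine `e` stops at step `t + 1` -/
def stops (e : Code) (t : ℕ) : Bool := (e.evaln t 0).isSome

theorem stops_mono {e : Code} {t t' : ℕ} (h : t ≤ t') (h1 : stops e t = true) :
    stops e t' = true := by
  unfold stops at *
  obtain ⟨x, hx⟩ := Option.isSome_iff_exists.1 h1
  have := Code.evaln_mono h (Option.mem_def.2 hx)
  rw [Option.mem_def.1 this]
  rfl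

/-- the machine stops exactly at stage `t` -/
def first (e : Code) (t : ℕ) : Bool := stops e (t + 1) && !stops e t

theorem first_unique {e : Code} {t t' : ℕ} (h : first e t = true) (h' : first e t' = true) :
    t = t' := by
  unfold first at h h'
  simp only [Bool.and_eq_true, Bool.not_eq_true'] at h h'
  by_contra hne
  rcases Nat.lt_or_gt_of_ne hne with hlt | hlt
  · have := stops_mono (e := e) (show t + 1 ≤ t' by omega) h.1
    rw [h'.2] at this
    exact absurd this (by decide)
  · have := stops_mono (e := e) (show t' + 1 ≤ t by omega) h'.1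
    rw [h.2] at this
    exact absurd this (by decide)

theorem exists_first_iff (e : Code) : (∃ t, first e t = true) ↔ (e.eval 0).Dom := by
  constructor
  · rintro ⟨t, h⟩
    unfold first at h
    simp only [Bool.and_eq_true] at h
    obtain ⟨x, hx⟩ := Option.isSome_iff_exists.1 h.1
    have h2 : x ∈ e.eval 0 := Code.evaln_complete.2 ⟨t + 1, Option.mem_def.2 hx⟩
    exact Part.dom_iff_mem.2 ⟨x, h2⟩
  · intro h
    obtain ⟨x, hx⟩ := Part.dom_iff_mem.1 h
    obtain ⟨k, hk⟩ := Code.evaln_complete.1 hx
    have hs : ∃ t, stops e t = true := ⟨k, by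
      unfold stops
      rw [Option.mem_def.1 hk]
      rfl⟩
    classical
    have h0 : ¬ stops e 0 = true := by
      unfold stops
      simp [Code.evaln]
    have hpos : Nat.find hs ≠ 0 := by
      intro h1
      have := Nat.find_spec hs
      rw [h1] at this
      exact h0 this
    obtain ⟨t, ht⟩ := Nat.exists_eq_succ_of_ne_zero hpos
    refine ⟨t, ?_⟩
    unfold first
    have h1 : stops e (t + 1) = true := by
      have := Nat.find_spec hs
      rwa [ht] at this
    have h2 : ¬ stops e t = true := Nat.find_min hs (by omega)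
    simp [h1, h2]

/-- The position of the element `n = (e, s)`. For `s = 0, 1` it is `4 e` and `4 e + 2`. If
machine `e` stops exactly at stage `t`, the position of `(e, t + 2)` is `4 e + 1`. All other
elements `n` have the position `4 n + 3`. -/
def key (n : ℕ) : ℕ :=
  if n.unpair.2 = 0 then 4 * n.unpair.1
  else if n.unpair.2 = 1 then 4 * n.unpair.1 + 2
  else if first (Denumerable.ofNat Code n.unpair.1) (n.unpair.2 - 2) = true then
    4 * n.unpair.1 + 1
  else 4 * n + 3

theorem primrec_stops : Primrec₂ stops := by
  have h : Primrec fun a : Code × ℕ => a.1.evaln a.2 0 :=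
    Code.primrec_evaln.comp ((Primrec.snd.pair Primrec.fst).pair (Primrec.const 0))
  exact (Primrec.option_isSome.comp h).to₂

theorem primrec_first : Primrec₂ first := by
  have h1 : Primrec fun a : Code × ℕ => stops a.1 (a.2 + 1) :=
    primrec_stops.comp Primrec.fst (Primrec.succ.comp Primrec.snd)
  have h2 : Primrec fun a : Code × ℕ => !stops a.1 a.2 :=
    Primrec.not.comp (primrec_stops.comp Primrec.fst Primrec.snd)
  exact (Primrec.and.comp h1 h2).to₂

theorem primrec_key : Primrec key := by
  have u1 : Primrec fun n : ℕ => n.unpair.1 := Primrec.fst.comp Primrec.unpair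
  have u2 : Primrec fun n : ℕ => n.unpair.2 := Primrec.snd.comp Primrec.unpair
  have m4 : ∀ {f : ℕ → ℕ}, Primrec f → Primrec fun n => 4 * f n := fun hf =>
    Primrec.nat_mul.comp (Primrec.const 4) hf
  have ad : ∀ {f : ℕ → ℕ} (c : ℕ), Primrec f → Primrec fun n => f n + c := fun c hf =>
    Primrec.nat_add.comp hf (Primrec.const c)
  have hf : Primrec fun n : ℕ => first (Denumerable.ofNat Code n.unpair.1) (n.unpair.2 - 2) :=
    primrec_first.comp ((Primrec.ofNat Code).comp u1)
      (Primrec.nat_sub.comp u2 (Primrec.const 2))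
  unfold key
  refine Primrec.ite (Primrec.eq.comp u2 (Primrec.const 0)) (m4 u1) ?_
  refine Primrec.ite (Primrec.eq.comp u2 (Primrec.const 1)) (ad 2 (m4 u1)) ?_
  exact Primrec.ite (Primrec.eq.comp hf (Primrec.const true)) (ad 1 (m4 u1))
    (ad 3 (m4 Primrec.id))

theorem key_injective : Function.Injective key := by
  intro m n h
  have hm := Nat.pair_unpair m
  have hn := Nat.pair_unpair n
  unfold key at h
  by_cases a0 : m.unpair.2 = 0
  · rw [if_pos a0] at h
    by_cases b0 : n.unpair.2 = 0
    · rw [if_pos b0] at h
      rw [← hm, ← hn, a0, b0, show m.unpair.1 = n.unpair.1 by omega]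
    · rw [if_neg b0] at h
      by_cases b1 : n.unpair.2 = 1
      · rw [if_pos b1] at h; omega
      · rw [if_neg b1] at h
        by_cases b2 : first (Denumerable.ofNat Code n.unpair.1) (n.unpair.2 - 2) = true
        · rw [if_pos b2] at h; omega
        · rw [if_neg b2] at h; omega
  · rw [if_neg a0] at h
    by_cases a1 : m.unpair.2 = 1
    · rw [if_pos a1] at h
      by_cases b0 : n.unpair.2 = 0
      · rw [if_pos b0] at h; omega
      · rw [if_neg b0] at h
        by_cases b1 : n.unpair.2 = 1
        · rw [if_pos b1] at h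
          rw [← hm, ← hn, a1, b1, show m.unpair.1 = n.unpair.1 by omega]
        · rw [if_neg b1] at h
          by_cases b2 : first (Denumerable.ofNat Code n.unpair.1) (n.unpair.2 - 2) = true
          · rw [if_pos b2] at h; omega
          · rw [if_neg b2] at h; omega
    · rw [if_neg a1] at h
      by_cases a2 : first (Denumerable.ofNat Code m.unpair.1) (m.unpair.2 - 2) = true
      · rw [if_pos a2] at h
        by_cases b0 : n.unpair.2 = 0
        · rw [if_pos b0] at h; omega
        · rw [if_neg b0] at h
          by_cases b1 : n.unpair.2 = 1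
          · rw [if_pos b1] at h; omega
          · rw [if_neg b1] at h
            by_cases b2 : first (Denumerable.ofNat Code n.unpair.1) (n.unpair.2 - 2) = true
            · rw [if_pos b2] at h
              have h1 : m.unpair.1 = n.unpair.1 := by omega
              rw [← h1] at b2
              have h2 := first_unique a2 b2
              rw [← hm, ← hn, h1, show m.unpair.2 = n.unpair.2 by omega]
            · rw [if_neg b2] at h; omega
      · rw [if_neg a2] at h
        by_cases b0 : n.unpair.2 = 0
        · rw [if_pos b0] at h; omega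
        · rw [if_neg b0] at h
          by_cases b1 : n.unpair.2 = 1
          · rw [if_pos b1] at h; omega
          · rw [if_neg b1] at h
            by_cases b2 : first (Denumerable.ofNat Code n.unpair.1) (n.unpair.2 - 2) = true
            · rw [if_pos b2] at h; omega
            · rw [if_neg b2] at h; omega

/-- The order. -/
def ord (m n : ℕ) : Prop := key m < key n

instance : IsStrictTotalOrder ℕ ord where
  trichotomous := by
    intro a b h1 h2
    unfold ord at h1 h2
    exact key_injective (by omega)
  irrefl := fun a => by unfold ord; omega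
  trans := fun a b c h1 h2 => by unfold ord at *; omega

theorem ord_computable : ComputablePred fun p : ℕ × ℕ => ord p.1 p.2 := by
  have h : PrimrecPred fun p : ℕ × ℕ => ord p.1 p.2 :=
    Primrec.nat_lt.comp (primrec_key.comp Primrec.fst) (primrec_key.comp Primrec.snd)
  obtain ⟨i, hi⟩ := h
  exact ⟨i, hi.to_comp⟩

theorem between_iff (e : ℕ) : (∃ x, ord (Nat.pair e 0) x ∧ ord x (Nat.pair e 1)) ↔
    ((Denumerable.ofNat Code e).eval 0).Dom := by
  rw [← exists_first_iff]
  have k0 : key (Nat.pair e 0) = 4 * e := by unfold key; simp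
  have k1 : key (Nat.pair e 1) = 4 * e + 2 := by unfold key; simp
  unfold ord
  rw [k0, k1]
  constructor
  · rintro ⟨x, h1, h2⟩
    have hx : key x = 4 * e + 1 := by omega
    unfold key at hx
    by_cases b0 : x.unpair.2 = 0
    · rw [if_pos b0] at hx; omega
    · rw [if_neg b0] at hx
      by_cases b1 : x.unpair.2 = 1
      · rw [if_pos b1] at hx; omega
      · rw [if_neg b1] at hx
        by_cases b2 : first (Denumerable.ofNat Code x.unpair.1) (x.unpair.2 - 2) = true
        · rw [if_pos b2] at hx
          have h3 : x.unpair.1 = e := by omega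
          rw [h3] at b2
          exact ⟨_, b2⟩
        · rw [if_neg b2] at hx; omega
  · rintro ⟨t, ht⟩
    refine ⟨Nat.pair e (t + 2), ?_⟩
    have : key (Nat.pair e (t + 2)) = 4 * e + 1 := by
      unfold key
      simp [ht]
    omega

theorem sys_iff (e : ℕ) : Solvable ord (sys (Nat.pair e 0) (Nat.pair e 1)) ↔
    ((Denumerable.ofNat Code e).eval 0).Dom := by
  rw [← between_iff]
  constructor
  · intro h
    by_contra hno
    push Not at hno
    refine backward ?_ hno h
    have k0 : key (Nat.pair e 0) = 4 * e := by unfold key; simp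
    have k1 : key (Nat.pair e 1) = 4 * e + 2 := by unfold key; simp
    unfold ord
    omega
  · rintro ⟨x, h1, h2⟩
    exact forward h1 h2

theorem primrec_sys : Primrec₂ (sys : ℕ → ℕ → List (List (ℕ ⊕ ℕ) × List (ℕ ⊕ ℕ))) := by
  have ca : Primrec fun p : ℕ × ℕ => (Sum.inr p.1 : ℕ ⊕ ℕ) := Primrec.sumInr.comp Primrec.fst
  have cb : Primrec fun p : ℕ × ℕ => (Sum.inr p.2 : ℕ ⊕ ℕ) := Primrec.sumInr.comp Primrec.snd
  have cx : Primrec fun _ : ℕ × ℕ => (Sum.inl 0 : ℕ ⊕ ℕ) := Primrec.const _
  have w : ∀ {f g h : ℕ × ℕ → ℕ ⊕ ℕ}, Primrec f → Primrec g → Primrec h →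
      Primrec fun p => [f p, g p, h p] := fun hf hg hh =>
    Primrec.list_cons.comp hf (Primrec.list_cons.comp hg (Primrec.list_cons.comp hh
      (Primrec.const [])))
  have c : ∀ {f : ℕ × ℕ → List (ℕ ⊕ ℕ) × List (ℕ ⊕ ℕ)}
      {g : ℕ × ℕ → List (List (ℕ ⊕ ℕ) × List (ℕ ⊕ ℕ))}, Primrec f → Primrec g →
      Primrec fun p => f p :: g p := fun hf hg => Primrec.list_cons.comp hf hg
  unfold sys
  exact c (Primrec.pair (w ca cb cx) (w cb ca cx)) (c (Primrec.pair (w cx ca cb) (w cx cb ca))
    (c (Primrec.pair (w ca cx ca) (w cx ca ca)) (c (Primrec.pair (w cx ca cx) (w cx cx ca))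
      (c (Primrec.pair (w cb cx cb) (w cb cb cx)) (Primrec.const [])))))

theorem ord_iso : Nonempty ((fun m n : ℕ => m < n) ≃r ord) := by
  have : Infinite (Set.range key) := (Set.infinite_range_of_injective key_injective).to_subtype
  classical
  let e1 : ℕ ≃o Set.range key := Nat.Subtype.orderIsoOfNat (Set.range key)
  let e2 : ℕ ≃ Set.range key := Equiv.ofInjective key key_injective
  refine ⟨⟨e1.toEquiv.trans e2.symm, ?_⟩⟩
  intro a b
  have h : ∀ x : Set.range key, key (e2.symm x) = x := fun x =>
    congrArg Subtype.val (e2.apply_symm_apply x)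
  change key (e2.symm (e1 a)) < key (e2.symm (e1 b)) ↔ _
  rw [h, h]
  exact e1.lt_iff_lt

/-- There is a recursive total order `lt` on `ℕ`, isomorphic to the usual one, such that no
algorithm decides whether a given finite system of equations with constants has a solution in the
plactic monoid of `(ℕ, lt)`. -/
theorem result : ∃ lt : ℕ → ℕ → Prop, IsStrictTotalOrder ℕ lt ∧
    (ComputablePred fun p : ℕ × ℕ => lt p.1 p.2) ∧
    Nonempty ((fun m n : ℕ => m < n) ≃r lt) ∧
    ¬ ComputablePred (Solvable lt) := by
  refine ⟨ord, inferInstance, ord_computable, ord_iso, ?_⟩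
  intro h
  apply ComputablePred.halting_problem 0
  refine ComputablePred.computable_of_manyOneReducible (q := Solvable ord)
    ⟨fun c => sys (Nat.pair (Encodable.encode c) 0) (Nat.pair (Encodable.encode c) 1), ?_, ?_⟩ h
  · have h1 : Primrec fun c : Code => Nat.pair (Encodable.encode c) 0 :=
      Primrec₂.natPair.comp Primrec.encode (Primrec.const 0)
    have h2 : Primrec fun c : Code => Nat.pair (Encodable.encode c) 1 :=
      Primrec₂.natPair.comp Primrec.encode (Primrec.const 1)
    exact (primrec_sys.comp h1 h2).to_comp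
  · intro c
    rw [sys_iff, Denumerable.ofNat_encode]

end Pool.Agent.Results.MP_a663df_lc.RecursiveOrder
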